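import Pool.Agent.Run7.h275.RB0

/-!
# Piece INIT of the project RB of helper275 (helper806)
-/

set_option autoImplicit false

namespace Pool.Agent.Run7.h275.RB

open IsLocalRing Pool.Agent.W418.LU2 Pool.Agent.H918R2.Quad Pool.Agent.Run7.h275.RL

/-- the range of an algebra homomorphism from an algebra of finite type is finitely generated -/
theorem fgo_range {O S L : Type} [CommRing O] [CommRing S] [Field L] [Algebra O S] [Algebra O L]
    [Algebra.FiniteType O S] (ψ : S →+* L) (h : ∀ o, ψ (algebraMap O S o) = algebraMap O L o) :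
    FGO O ψ.range := by
  classical
  obtain ⟨t, ht⟩ := (Algebra.FiniteType.out : (⊤ : Subalgebra O S).FG)
  let Ψ : S →ₐ[O] L := { ψ with commutes' := h }
  refine ⟨t.image Ψ, ?_⟩
  have h1 : Algebra.adjoin O ((t.image Ψ : Finset L) : Set L) = Ψ.range := by
    rw [Finset.coe_image, ← AlgHom.map_adjoin, ht, Algebra.map_top]
  rw [h1]
  ext x
  rfl

/-- **INIT'** The statement `S_INIT` with the compatibility of the two algebra structures as an explicit hypothesis.
(In `S_INIT` the instance argument `[IsScalarTower O S (FractionRing S)]` is about the scalar multiplication of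
`OreLocalization` and not about the given structure `[Algebra O (FractionRing S)]`.) -/
def S_INIT' : Prop := ∀ (O S F : Type) [CommRing O] [CommRing S] [IsDomain S] [IsRegularRing S]
  [Field F] [Algebra O F] [Algebra O S] [Algebra.FiniteType O S] [Algebra O (FractionRing S)]
  (_ : ∀ o : O, algebraMap O (FractionRing S) o = algebraMap S (FractionRing S) (algebraMap O S o))
  (φ : S →+* F) (_ : ∀ o, φ (algebraMap O S o) = algebraMap O F o) (r : ℕ) (D : Fin r → S → F) (hD : ∀ j, Der φ (D j))
  (f₀ : Fin r → S), (∀ i, φ (f₀ i) = 0) →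
  (∀ s, φ s = 0 → ∃ t, φ t ≠ 0 ∧ t * s ∈ Ideal.span (Set.range f₀)) → (∀ j s, D j s ∈ φ.range) →
  ∃ p : Pres S F, p.Ok O 0 φ.range ∧ p.dl = (Matrix.of fun i j => D j (f₀ i)).det ∧
    ∀ V : ValuationSubring F, φ.range ≤ V.toSubring → p.At 0 φ.range V

theorem t_INIT' : S_INIT' := by
  intro O S F _ _ _ _ _ _ _ _ _ hST φ hφ r D hD f₀ hf₀ hgen hDr
  let p : Pres S F :=
    { φ := φ
      r := r
      D := D
      hD := hD
      f₀ := f₀
      P := (algebraMap S (FractionRing S)).range
      f := fun i => algebraMap S (FractionRing S) (f₀ i)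
      z := fun _ => 1
      u := 1 }
  refine ⟨p, ?_, rfl, ?_⟩
  · refine
      { fg := ?_
        fgB := ?_
        SP := fun s => ⟨s, rfl⟩
        pr := ?_
        im := ?_
        zB := fun i hi => absurd hi (Nat.not_lt_zero i)
        bd := ?_
        fP := fun i => ⟨f₀ i, rfl⟩
        f0 := ?_
        gen := ?_
        u0 := one_ne_zero
        det := ?_ }
    · exact fgo_range _ fun o => (hST o).symm
    · exact fgo_range φ hφ
    · rintro _ ⟨s, rfl⟩
      exact ⟨φ s, ⟨s, rfl⟩, Pr.alg s⟩
    · ext w
      constructor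
      · rintro ⟨_, ⟨s, rfl⟩, h⟩
        rw [h.unique (Pr.alg s)]
        exact ⟨s, rfl⟩
      · rintro ⟨s, rfl⟩
        exact ⟨_, ⟨s, rfl⟩, Pr.alg s⟩
    · rintro j _ ⟨s, rfl⟩
      have h1 : p.Z 0 = 1 := Finset.prod_range_zero _
      rw [h1, one_mul]
      change dd φ (D j) (algebraMap S (FractionRing S) s) ∈ _
      rw [dd_alg (hD j)]
      exact hDr j s
    · intro i
      have h1 := Pr.alg (F := FractionRing S) (φ := φ) (f₀ i)
      rw [hf₀ i] at h1
      exact h1
    · rintro y ⟨a, b, hb, h1, h2⟩
      have ha : φ a = 0 := by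
        change φ b ≠ 0 at hb
        change (0 : F) * φ b = φ a at h2
        rw [← h2, zero_mul]
      obtain ⟨t, ht, hts⟩ := hgen a ha
      obtain ⟨c, hc⟩ := Ideal.mem_span_range_iff_exists_fun.1 hts
      have htb : φ (t * b) ≠ 0 := by
        rw [map_mul]
        exact mul_ne_zero ht hb
      have hne : algebraMap S (FractionRing S) (t * b) ≠ 0 :=
        (Pr.alg (F := FractionRing S) (φ := φ) (t * b)).ne_zero htb
      refine ⟨fun i => algebraMap S (FractionRing S) (c i) * (algebraMap S (FractionRing S) (t * b))⁻¹,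
        fun i => ⟨_, (Pr.alg (c i)).mul ((Pr.alg (t * b)).inv htb)⟩, ?_⟩
      have h3 : y * algebraMap S (FractionRing S) (t * b) =
          ∑ i, algebraMap S (FractionRing S) (c i) * algebraMap S (FractionRing S) (f₀ i) := by
        have h4 := congrArg (algebraMap S (FractionRing S)) hc
        rw [map_sum, map_mul] at h4
        rw [map_mul, mul_left_comm, h1, ← h4]
        exact Finset.sum_congr rfl fun i _ => map_mul _ _ _
      have h5 : y = (∑ i, algebraMap S (FractionRing S) (c i) * algebraMap S (FractionRing S) (f₀ i)) *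
          (algebraMap S (FractionRing S) (t * b))⁻¹ := by
        rw [← h3, mul_assoc, mul_inv_cancel₀ hne, mul_one]
      rw [h5, Finset.sum_mul]
      refine Finset.sum_congr rfl fun i _ => ?_
      change _ = _ * algebraMap S (FractionRing S) (f₀ i)
      ring
    · have h1 : p.Z 0 = 1 := Finset.prod_range_zero _
      rw [h1, one_pow, mul_one]
      change _ = 1 * p.dl
      rw [one_mul]
      unfold Pres.dl
      congr 1
      ext i j
      exact dd_alg (hD j) (f₀ i)
  · intro V hV
    refine
      { BV := hV
        uV := ?_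
        zV := fun i hi => absurd hi (Nat.not_lt_zero i)
        reg := regular_range (F := FractionRing S) fun s => hV ⟨s, rfl⟩ }
    change (1 : F)⁻¹ ∈ V
    rw [inv_one]
    exact V.one_mem

end Pool.Agent.Run7.h275.RB
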